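import Pool.Agent.Q227.SP.PlP
import Pool.Agent.Q24.SU.Pair

/-!
# Project SP, job P3: the four bounds at a place for original coordinates, for a ring homomorphism
-/

set_option autoImplicit false
set_option linter.unusedSectionVars false
set_option linter.unusedVariables false

namespace Pool.Agent.Q227.SP

open Finset Polynomial Pool.Agent.Q41.SU Pool.Agent.Q41.SP Pool.Agent.Q24.SU

universe u

section

variable {k E Λ : Type u} [Field k] [Field E] [Algebra k E] [NormedField Λ] [IsUltrametricDist Λ]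
  [Algebra k Λ]

/-- the image of a Moebius map -/
def mbr (ψ : E →+* Λ) (m : Mb E) : Mb Λ := ⟨ψ m.α, ψ m.β, ψ m.γ, ψ m.δ⟩

theorem mbr_det (ψ : E →+* Λ) (m : Mb E) : (mbr ψ m).det = ψ m.det := by
  unfold mbr Mb.det
  simp only [map_sub, map_mul]

theorem mbr_den (ψ : E →+* Λ) (m : Mb E) (x : E) : (mbr ψ m).den (ψ x) = ψ (m.den x) := by
  unfold mbr Mb.den
  simp only [map_add, map_mul]

theorem mbr_app (ψ : E →+* Λ) (m : Mb E) (x : E) : (mbr ψ m).app (ψ x) = ψ (m.app x) := by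
  unfold Mb.app
  rw [mbr_den, map_div₀]
  unfold mbr
  simp only [map_add, map_mul]

theorem cvt_eqP {J : Type} [Fintype J] [DecidableEq J] (ψ : E →+* Λ) {e : ℕ} {u : E → ℤ} {K : ℝ}
    (hψ : ∀ w, w ≠ 0 → -Real.log ‖ψ w‖ = K * ((u w : ℝ) / e)) {m : Mb E} (hm : m.det ≠ 0) {x : J → E}
    (hx : Function.Injective x) (hd : ∀ l, m.den (x l) ≠ 0) :
    ((∑ l, ∑ j ∈ univ.erase l, -Real.log ‖ψ (x l) - ψ (x j)‖) -
      ∑ l, ∑ j ∈ univ.erase l, -Real.log ‖(mbr ψ m).app (ψ (x l)) - (mbr ψ m).app (ψ (x j))‖) =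
      K * cvt e u x (fun l => m.app (x l)) := by
  unfold cvt
  rw [mul_sub, mul_sum, mul_sum]
  congr 1
  · refine sum_congr rfl fun l _ => ?_
    rw [mul_sum]
    refine sum_congr rfl fun j hj => ?_
    rw [← map_sub, hψ _ (sub_ne_zero.2 fun h => (mem_erase.1 hj).1 (hx h).symm)]
  · refine sum_congr rfl fun l _ => ?_
    rw [mul_sum]
    refine sum_congr rfl fun j hj => ?_
    rw [mbr_app, mbr_app, ← map_sub, hψ _ (sub_ne_zero.2 fun h => (mem_erase.1 hj).1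
      (app_injective hm hx hd h).symm)]

theorem cov1P (hC : S_covn.{u}) (ψ : E →+* Λ) {e : ℕ} {u : E → ℤ} {K : ℝ}
    (hψ : ∀ w, w ≠ 0 → -Real.log ‖ψ w‖ = K * ((u w : ℝ) / e)) {a b : ℕ} (hab : 1 ≤ a + b)
    {m : Mb E} (hm : m.det ≠ 0) {x : II a b → E}
    (hx : Function.Injective x) (hd : ∀ l, m.den (x l) ≠ 0) (y : II a b → Λ) :
    ‖bd a b (fun l => ψ (x l)) y‖ = Real.exp (-((a : ℝ) / (2 * ((a + 1) * (b + 1) - 1)) *
        (K * cvt e u x (fun l => m.app (x l))))) * ‖bd a b (fun l => ψ (m.app (x l))) y‖ ∧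
    ‖bd a b y (fun l => ψ (x l))‖ = Real.exp (-((b : ℝ) / (2 * ((a + 1) * (b + 1) - 1)) *
        (K * cvt e u x (fun l => m.app (x l))))) * ‖bd a b y (fun l => ψ (m.app (x l)))‖ := by
  have hdet : (mbr ψ m).det ≠ 0 := by
    rw [mbr_det]
    exact (map_ne_zero ψ).2 hm
  have hden : ∀ l, (mbr ψ m).den (ψ (x l)) ≠ 0 := fun l => by
    rw [mbr_den]
    exact (map_ne_zero ψ).2 (hd l)
  have hinj : Function.Injective fun l => ψ (x l) := fun i j h => hx (ψ.injective h)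
  obtain ⟨h1, h2⟩ := hC Λ a b hab (mbr ψ m) hdet (fun l => ψ (x l)) y hinj hden
  rw [cvt_eqP ψ hψ hm hx hd] at h1 h2
  simp only [mbr_app] at h1 h2
  exact ⟨h1, h2⟩

theorem log_PhiP {ι : E →ₐ[k] Λ} {e : ℕ} {u : E → ℤ} (hp : IsPl k ι e u) {Φ : Λ →+* Λ} {Θ : ℕ}
    (hΦ : ∀ x, ‖Φ x‖ = ‖x‖ ^ Θ) (w : E) (hw : w ≠ 0) :
    -Real.log ‖(Φ.comp (ι : E →+* Λ)) w‖ = Θ * ((u w : ℝ) / e) := by
  rw [RingHom.comp_apply, hΦ, Real.log_pow]
  have : ‖(ι : E →+* Λ) w‖ = ‖ι w‖ := rfl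
  rw [this, hp.norm w hw, Real.log_exp]
  ring

end

/-- **Job P3.** -/
theorem pairP' (hp0 : S_plP.{u}) (h4 : S_covn.{u}) : S_pairP.{u} := by
  intro k E Λ _ _ _ _ _ _ hc ι e u hp ι' e' u' hp' a b Θ M hab hΘ x x' hx hx' m m' hm hm' hd hd'
    hi hi' Φ hΦ
  have hz := app_injective hm hx hd
  have hz' := app_injective hm' hx' hd'
  obtain ⟨b1, b2, b3⟩ := hp0 k E Λ hc ι e u hp ι' e' u' hp' a b Θ M (fun l => m.app (x l))
    (fun l => m'.app (x' l)) hz hz' hi hi' Φ hΦ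
  refine ⟨fun y hy => ?_, ?_, ?_⟩
  · obtain ⟨a1, _⟩ := cov1 h4 ι (log_iota hp) hab hm hx hd y
    obtain ⟨_, a2⟩ := cov1P h4 (Φ.comp (ι : E →+* Λ)) (log_PhiP hp hΦ) hab hm hx hd y
    obtain ⟨c1, c2⟩ := b3 y hy
    constructor
    · rw [a1, neg_add, Real.exp_add, one_mul]
      exact mul_le_mul_of_nonneg_left c1 (Real.exp_pos _).le
    · have a3 : ‖bd a b y (fun l => Φ (ι (x l)))‖ =
          Real.exp (-((b : ℝ) / (2 * ((a + 1) * (b + 1) - 1)) *
          (Θ * cvt e u x (fun l => m.app (x l))))) * ‖bd a b y (fun l => Φ (ι (m.app (x l))))‖ := a2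
      rw [a3]
      refine (mul_le_mul_of_nonneg_left c2 (Real.exp_pos _).le).trans (le_of_eq ?_)
      rw [← Real.exp_add]
      congr 1
      ring
  · obtain ⟨a1, _⟩ := cov1 h4 ι (log_iota hp) hab hm hx hd (fun l => Φ (ι' (x' l)))
    obtain ⟨_, a2⟩ := cov1P h4 (Φ.comp (ι' : E →+* Λ)) (log_PhiP hp' hΦ) hab hm' hx' hd'
      (fun l => ι (m.app (x l)))
    have a3 : ‖bd a b (fun l => ι (m.app (x l))) (fun l => Φ (ι' (x' l)))‖ =
        Real.exp (-((b : ℝ) / (2 * ((a + 1) * (b + 1) - 1)) *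
        (Θ * cvt e' u' x' (fun l => m'.app (x' l))))) *
        ‖bd a b (fun l => ι (m.app (x l))) (fun l => Φ (ι' (m'.app (x' l))))‖ := a2
    rw [a1, a3, ← mul_assoc, ← Real.exp_add]
    refine (mul_le_mul_of_nonneg_left b2 (Real.exp_pos _).le).trans (le_of_eq ?_)
    rw [← Real.exp_add]
    congr 1
    ring
  · obtain ⟨a1, _⟩ := cov1 h4 ι (log_iota hp) hab hm hx hd (fun l => Φ (ι (x l)))
    obtain ⟨_, a2⟩ := cov1P h4 (Φ.comp (ι : E →+* Λ)) (log_PhiP hp hΦ) hab hm hx hd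
      (fun l => ι (m.app (x l)))
    have a3 : ‖bd a b (fun l => ι (m.app (x l))) (fun l => Φ (ι (x l)))‖ =
        Real.exp (-((b : ℝ) / (2 * ((a + 1) * (b + 1) - 1)) *
        (Θ * cvt e u x (fun l => m.app (x l))))) *
        ‖bd a b (fun l => ι (m.app (x l))) (fun l => Φ (ι (m.app (x l))))‖ := a2
    rw [a1, a3, ← mul_assoc, ← Real.exp_add]
    refine (mul_le_mul_of_nonneg_left b1 (Real.exp_pos _).le).trans (le_of_eq ?_)
    rw [← Real.exp_add]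
    congr 1
    ring

/-- **Job P3**, with `S_plP` discharged. -/
theorem pairP (h4 : S_covn.{u}) : S_pairP.{u} := pairP' plP h4

end Pool.Agent.Q227.SP
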