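import Pool.Agent.Q227.SP.ClwP
import Pool.Agent.Q24.SU.Pl

/-!
# Project SP, job P2: the bounds at a place, for a ring homomorphism
-/

set_option autoImplicit false
set_option linter.unusedSectionVars false

namespace Pool.Agent.Q227.SP

open Finset Polynomial Pool.Agent.Q41.SU Pool.Agent.Q41.SP Pool.Agent.Q24.SU

universe u

/-- injective images of the digits have the same classes -/
theorem dcl_map {J A B : Type*} (g : A → B) (hg : Function.Injective g) (c : ℕ → J → A) (i : ℕ)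
    (l : J) : dcl (fun i l => g (c i l)) i l = dcl c i l := by
  unfold dcl
  congr 1
  ext m
  simp only [Set.mem_ofPred_eq]
  exact ⟨fun h j hj => hg (h j hj), fun h j hj => by rw [h j hj]⟩

section

variable {k E Λ : Type u} [Field k] [Field E] [Algebra k E] [NormedField Λ] [IsUltrametricDist Λ]
  [Algebra k Λ] {ι : E →ₐ[k] Λ} {e : ℕ} {u : E → ℤ}

theorem PhiP_exp {J : Type} (Φ : Λ →+* Λ) {c : ℕ → J → k} {z η : J → E} {π : E} {M : ℕ}
    (h : ∀ l, z l = ∑ i ∈ range M, algebraMap k E (c i l) * π ^ i + π ^ M * η l) (l : J) :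
    Φ (ι (z l)) = ∑ i ∈ range M, Φ (algebraMap k Λ (c i l)) * (Φ (ι π)) ^ i +
      (Φ (ι π)) ^ M * Φ (ι (η l)) := by
  rw [iota_exp (ι := ι) h l, map_add, map_sum, map_mul, map_pow]
  congr 1
  refine sum_congr rfl fun i _ => ?_
  rw [map_mul, map_pow]

theorem PhiP_pi (hp : IsPl k ι e u) {π : E} (h0 : π ≠ 0) (h1 : u π = 1) {Φ : Λ →+* Λ} {Θ : ℕ}
    (hΦ : ∀ x, ‖Φ x‖ = ‖x‖ ^ Θ) : ‖Φ (ι π)‖ = Real.exp (-(Θ * (1 / e))) := by
  rw [hΦ, norm_pi hp h0 h1, ← Real.exp_nat_mul]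
  congr 1
  ring

theorem LS_dclP {a b : ℕ} {J : Type} [Fintype J] [DecidableEq J] (F : ℕ → ℝ) {c : ℕ → J → k}
    {z : J → E} {M : ℕ} (Φ : Λ →+* Λ) (h : ∀ i ≤ M, ∀ l m, (∀ j < i, c j m = c j l) ↔
      (m = l ∨ (i : ℤ) ≤ u (z l - z m))) :
    ∑ i ∈ Icc 1 M, ∑ l, F (dcl (fun i l => Φ (algebraMap k Λ (c i l))) i l) /
      (dcl (fun i l => Φ (algebraMap k Λ (c i l))) i l : ℝ) =
      LS F M (fun l m => u (z l - z m)) := by
  rw [← LS_dcl (a := a) (b := b) (Λ := Λ) F h]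
  refine sum_congr rfl fun i _ => sum_congr rfl fun l _ => ?_
  rw [dcl_map Φ Φ.injective (fun i l => algebraMap k Λ (c i l)) i l]

theorem ncP (hc : ∀ c : k, c ≠ 0 → ‖algebraMap k Λ c‖ = 1) {Φ : Λ →+* Λ} {Θ : ℕ}
    (hΦ : ∀ x, ‖Φ x‖ = ‖x‖ ^ Θ) (c : k) : ‖Φ (algebraMap k Λ c)‖ ≤ 1 := by
  rw [hΦ]
  exact pow_le_one₀ (norm_nonneg _) (nc hc c)

end

/-- **Job P2.** -/
theorem plP' (h1 : S_clwP.{u}) (h3 : S_cli.{u}) (h4 : S_dig.{u}) : S_plP.{u} := by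
  intro k E Λ _ _ _ _ _ _ hc ι e u hp ι' e' u' hp' a b Θ M z z' hz hz' hzi hzi' Φ hΦ
  obtain ⟨π, c, η, h0, hu, hη, hexp, hcl⟩ := h4 k E Λ hc ι e u hp (II a b) z hz hzi M
  obtain ⟨π', c', η', h0', hu', hη', hexp', hcl'⟩ :=
    h4 k E Λ hc ι' e' u' hp' (II a b) z' hz' hzi' M
  have e1 : (fun l => ι (z l)) = fun l => ∑ i ∈ range M, algebraMap k Λ (c i l) * (ι π) ^ i +
      (ι π) ^ M * ι (η l) := funext fun l => iota_exp hexp l
  have e2 : (fun l => Φ (ι (z l))) = fun l => ∑ i ∈ range M, Φ (algebraMap k Λ (c i l)) *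
      (Φ (ι π)) ^ i + (Φ (ι π)) ^ M * Φ (ι (η l)) := funext fun l => PhiP_exp Φ hexp l
  have e3 : (fun l => Φ (ι' (z' l))) = fun l => ∑ i ∈ range M, Φ (algebraMap k Λ (c' i l)) *
      (Φ (ι' π')) ^ i + (Φ (ι' π')) ^ M * Φ (ι' (η' l)) := funext fun l => PhiP_exp Φ hexp' l
  have hle : ∀ (x : Λ), ‖x‖ ≤ 1 → ‖Φ x‖ ≤ 1 := fun x hx => by
    rw [hΦ]
    exact pow_le_one₀ (norm_nonneg _) hx
  refine ⟨?_, ?_, fun y hy => ⟨?_, ?_⟩⟩
  · have h2 := h1 Λ a b M 1 Θ (1 / e) (by positivity) (ι π) (Φ (ι π))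
      (by rw [norm_pi hp h0 hu, Nat.cast_one, one_mul]) (by rw [PhiP_pi hp h0 hu hΦ])
      (fun i l => algebraMap k Λ (c i l)) (fun i l => Φ (algebraMap k Λ (c i l)))
      (fun l => ι (η l)) (fun l => Φ (ι (η l)))
      (fun i l => nc hc _) (fun i l => ncP hc hΦ _) hη (fun l => hle _ (hη l))
      (fun i l m h => by rw [h])
    rw [e1, e2]
    refine h2.trans (le_of_eq ?_)
    congr 2
    rw [LS_dcl (a := a) (b := b) (fun n => (phi 1 Θ a b n : ℝ)) hcl]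
    ring
  · have h2 := h3 Λ a b M M (1 / e) (Θ * (1 / e')) (by positivity) (by positivity) (ι π)
      (Φ (ι' π')) (by rw [norm_pi hp h0 hu]) (by rw [PhiP_pi hp' h0' hu' hΦ])
      (fun i l => algebraMap k Λ (c i l)) (fun i l => Φ (algebraMap k Λ (c' i l)))
      (fun l => ι (η l)) (fun l => Φ (ι' (η' l)))
      (fun i l => nc hc _) (fun i l => ncP hc hΦ _) hη (fun l => hle _ (hη' l))
    rw [e1, e3]
    refine h2.trans (le_of_eq ?_)
    congr 2
    rw [LS_dcl (a := a) (b := b) (fun n => (phi 1 0 a b n : ℝ)) hcl,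
      LS_dclP (a := a) (b := b) (fun n => (phi 0 1 a b n : ℝ)) Φ hcl']
    ring
  · have e4 : y = fun l => ∑ i ∈ range 0, (0 : Λ) * (0 : Λ) ^ i + (0 : Λ) ^ 0 * y l := by
      funext l
      simp
    have h2 := h3 Λ a b M 0 (1 / e) 0 (by positivity) le_rfl (ι π) 0
      (by rw [norm_pi hp h0 hu]) (by rw [norm_zero]; exact (Real.exp_pos _).le)
      (fun i l => algebraMap k Λ (c i l)) (fun i l => 0) (fun l => ι (η l)) y
      (fun i l => nc hc _) (fun i l => by rw [norm_zero]; exact zero_le_one) hη hy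
    rw [e1]
    conv_lhs => rw [e4]
    refine h2.trans (le_of_eq ?_)
    congr 2
    rw [LS_dcl (a := a) (b := b) (fun n => (phi 1 0 a b n : ℝ)) hcl]
    ring
  · have e4 : y = fun l => ∑ i ∈ range 0, (0 : Λ) * (0 : Λ) ^ i + (0 : Λ) ^ 0 * y l := by
      funext l
      simp
    have h2 := h3 Λ a b 0 M 0 (Θ * (1 / e)) le_rfl (by positivity) 0 (Φ (ι π))
      (by rw [norm_zero]; exact (Real.exp_pos _).le) (by rw [PhiP_pi hp h0 hu hΦ])
      (fun i l => 0) (fun i l => Φ (algebraMap k Λ (c i l))) y (fun l => Φ (ι (η l)))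
      (fun i l => by rw [norm_zero]; exact zero_le_one) (fun i l => ncP hc hΦ _) hy
      (fun l => hle _ (hη l))
    rw [e2]
    conv_lhs => rw [e4]
    refine h2.trans (le_of_eq ?_)
    congr 2
    rw [LS_dclP (a := a) (b := b) (fun n => (phi 0 1 a b n : ℝ)) Φ hcl]
    ring

/-- **Job P2**, with all hypotheses discharged. -/
theorem plP : S_plP.{u} :=
  plP' clwP (Pool.Agent.Q144.SU.cli Pool.Agent.Q144.SU.exp) t_dig

end Pool.Agent.Q227.SP
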